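import Mathlib

/-!
# Zero palindromic defect for fixed points of primitive marked morphisms

We prove: if `φ` is a primitive marked morphism over a finite alphabet and `u` is a fixed point
of `φ` with finite palindromic defect, then the palindromic defect of `u` is `0`.
-/

namespace Pool.Agent.Results.MP_90aa3f_co.ZeroDefect

open List

/-! ### Definitions -/

/-- The factor `u_i u_{i+1} ⋯ u_{i+n-1}` of the infinite word `u`. -/
def fac {A : Type*} (u : ℕ → A) (i n : ℕ) : List A := (List.range n).map fun k => u (i + k)

/-- The morphism `φ : A* → A*` given by its values on letters. -/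
def ap {A : Type*} (φ : A → List A) (w : List A) : List A := w.flatMap φ

/-- The set of palindromic factors of a finite word (including the empty word). -/
def pals {A : Type*} (w : List A) : Set (List A) := {p | p <:+: w ∧ p.reverse = p}

/-- Palindromic defect of a finite word: `|w| + 1` minus the number of palindromic factors. -/
noncomputable def defect {A : Type*} (w : List A) : ℕ := w.length + 1 - (pals w).ncard

/-- Palindromic defect of an infinite word. -/
noncomputable def wordDefect {A : Type*} (u : ℕ → A) : ℕ∞ :=
  ⨆ i : ℕ, ⨆ n : ℕ, (defect (fac u i n) : ℕ∞)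

/-- `φ` is primitive: for some `k ≥ 1` every letter `b` occurs in `φ^k(a)` for every `a`. -/
def Primitive {A : Type*} (φ : A → List A) : Prop :=
  ∃ k : ℕ, 1 ≤ k ∧ ∀ a b : A, b ∈ (ap φ)^[k] [a]

/-- `u` is a fixed point of `φ`: the image of each initial segment of `u` is an initial segment of `u`. -/
def IsFixed {A : Type*} (φ : A → List A) (u : ℕ → A) : Prop :=
  ∀ n : ℕ, ap φ (fac u 0 n) = fac u 0 (ap φ (fac u 0 n)).length

/-- Conjugate morphisms. -/
def Conjugate {A : Type*} (φ ψ : A → List A) : Prop :=
  ∃ w : List A, (∀ a, φ a ++ w = w ++ ψ a) ∨ (∀ a, w ++ φ a = ψ a ++ w)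

/-- Marked morphisms. -/
def Marked {A : Type*} (φ : A → List A) : Prop :=
  ∃ φ₁ φ₂ : A → List A, Conjugate φ φ₁ ∧ Conjugate φ φ₂ ∧
    (∀ b : A, ∃ a : A, (φ₁ a).getLast? = some b) ∧ (∀ b : A, ∃ a : A, (φ₂ a).head? = some b)

variable {A : Type*}

/-! ### Basic lemmas on factors -/

theorem fac_length (u : ℕ → A) (i n : ℕ) : (fac u i n).length = n := by simp [fac]

theorem fac_zero (u : ℕ → A) (i : ℕ) : fac u i 0 = [] := by simp [fac]

theorem fac_succ (u : ℕ → A) (i n : ℕ) : fac u i (n + 1) = fac u i n ++ [u (i + n)] := by
  simp [fac, List.range_succ]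

theorem fac_add (u : ℕ → A) (i m n : ℕ) :
    fac u i (m + n) = fac u i m ++ fac u (i + m) n := by
  simp [fac, List.range_add, Nat.add_assoc]

theorem fac_cons (u : ℕ → A) (i n : ℕ) : fac u i (n + 1) = u i :: fac u (i + 1) n := by
  rw [Nat.add_comm n 1, fac_add]
  simp [fac]

theorem fac_getElem (u : ℕ → A) (i n k : ℕ) (h : k < (fac u i n).length) :
    (fac u i n)[k] = u (i + k) := by simp [fac]

theorem fac_infix (u : ℕ → A) {a m b n : ℕ} (h1 : b ≤ a) (h2 : a + m ≤ b + n) :
    fac u a m <:+: fac u b n := by
  obtain ⟨c, rfl⟩ := Nat.exists_eq_add_of_le h1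
  obtain ⟨d, hd⟩ := Nat.exists_eq_add_of_le h2
  have : n = c + (m + d) := by omega
  subst this
  rw [fac_add, fac_add]
  exact ⟨fac u b c, fac u (b + c + m) d, by simp⟩

theorem fac_prefix (u : ℕ → A) (i : ℕ) {m n : ℕ} (h : m ≤ n) : fac u i m <+: fac u i n := by
  obtain ⟨c, rfl⟩ := Nat.exists_eq_add_of_le h
  rw [fac_add]; exact ⟨_, rfl⟩

/-- If `fac u i n = s ++ x ++ t` then `x` is the factor at position `i + |s|`. -/
theorem fac_split {u : ℕ → A} {i n : ℕ} {s x t : List A} (h : s ++ x ++ t = fac u i n) :
    s = fac u i s.length ∧ x = fac u (i + s.length) x.length ∧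
      t = fac u (i + s.length + x.length) t.length ∧ n = s.length + x.length + t.length := by
  have hn : n = s.length + x.length + t.length := by
    have := congrArg List.length h
    simp only [List.length_append, fac_length] at this
    omega
  subst hn
  rw [fac_add, fac_add] at h
  have h1 := List.append_inj h (by simp [fac_length])
  have h2 := List.append_inj h1.1 (by simp [fac_length])
  refine ⟨h2.1, h2.2, ?_, rfl⟩
  rw [Nat.add_assoc i]
  exact h1.2

/-- The language of `u`. -/
def Lang (u : ℕ → A) (w : List A) : Prop := ∃ i, w = fac u i w.length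

theorem lang_fac (u : ℕ → A) (i n : ℕ) : Lang u (fac u i n) := ⟨i, by rw [fac_length]⟩

theorem Lang.sub {u : ℕ → A} {w v : List A} (hw : Lang u w) (hv : v <:+: w) : Lang u v := by
  obtain ⟨i, hi⟩ := hw
  obtain ⟨s, t, h⟩ := hv
  rw [hi] at h
  exact ⟨i + s.length, (fac_split h).2.1⟩

theorem Lang.right {u : ℕ → A} {w : List A} (hw : Lang u w) (n : ℕ) :
    ∃ x : List A, x.length = n ∧ Lang u (w ++ x) := by
  obtain ⟨i, hi⟩ := hw
  refine ⟨fac u (i + w.length) n, fac_length _ _ _, ?_⟩
  have : w ++ fac u (i + w.length) n = fac u i (w.length + n) := by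
    rw [fac_add, ← hi]
  rw [this]; exact lang_fac _ _ _

/-- Uniform recurrence. -/
def UR (u : ℕ → A) : Prop := ∀ x, Lang u x → ∃ M : ℕ, ∀ i, x <:+: fac u i M

theorem Lang.left {u : ℕ → A} (hu : UR u) {w : List A} (hw : Lang u w) (n : ℕ) :
    ∃ x : List A, x.length = n ∧ Lang u (x ++ w) := by
  obtain ⟨M, hM⟩ := hu w hw
  obtain ⟨s, t, h⟩ := hM n
  obtain ⟨-, h2, -, -⟩ := fac_split h
  refine ⟨fac u s.length n, fac_length _ _ _, ?_⟩
  have : fac u s.length n ++ w = fac u s.length (n + w.length) := by
    rw [fac_add, Nat.add_comm s.length n, ← h2]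
  rw [this]; exact lang_fac _ _ _

/-! ### Palindromic factors and defect -/

theorem pals_finite (w : List A) : (pals w).Finite := by
  apply Set.Finite.subset (List.finite_toSet w.sublists)
  rintro p ⟨hp, -⟩
  simpa using hp.sublist

theorem pals_reverse (w : List A) : pals w.reverse = pals w := by
  ext p
  constructor
  · rintro ⟨h1, h2⟩
    refine ⟨?_, h2⟩
    rw [← h2]; rw [← List.reverse_infix]; simpa using h1
  · rintro ⟨h1, h2⟩
    refine ⟨?_, h2⟩
    rw [← h2]; rw [List.reverse_infix]; exact h1

theorem pals_nil : pals ([] : List A) = {[]} := by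
  ext p
  simp only [pals, Set.mem_ofPred_eq, List.infix_nil, Set.mem_singleton_iff]
  constructor
  · rintro ⟨h, -⟩; exact h
  · rintro rfl; simp

theorem pals_mono {v w : List A} (h : v <:+: w) : pals v ⊆ pals w :=
  fun _ hp => ⟨hp.1.trans h, hp.2⟩

/-- A palindromic factor of `w ++ [x]` that is not a factor of `w` is unique. -/
theorem new_pal_unique {w : List A} {x : A} {p q : List A} (hp : p ∈ pals (w ++ [x]))
    (hp' : ¬ p <:+: w) (hq : q ∈ pals (w ++ [x])) (hq' : ¬ q <:+: w) : p = q := by
  have key : ∀ p q : List A, p ∈ pals (w ++ [x]) → ¬ p <:+: w → q ∈ pals (w ++ [x]) →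
      ¬ q <:+: w → p.length ≤ q.length → p = q := by
    intro p q hp hp' hq hq' hl
    have hps : p <:+ w ++ [x] := by
      rcases List.infix_concat_iff.1 hp.1 with h | h
      · exact h
      · exact absurd h hp'
    have hqs : q <:+ w ++ [x] := by
      rcases List.infix_concat_iff.1 hq.1 with h | h
      · exact h
      · exact absurd h hq'
    have hpq : p <:+ q := List.suffix_of_suffix_length_le hps hqs hl
    have hpq' : p <+: q := by
      have := List.reverse_prefix.2 hpq
      rwa [hp.2, hq.2] at this
    obtain ⟨t, ht⟩ := hpq'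
    rcases List.eq_nil_or_concat t with h0 | ⟨t', y, h0⟩
    · subst h0; simpa using ht
    · exfalso
      apply hp'
      obtain ⟨s, hs⟩ := hqs
      rw [← ht, h0] at hs
      have : (s ++ p ++ t') ++ [y] = w ++ [x] := by
        rw [← hs]; simp
      have := (List.append_inj' this rfl).1
      rw [← this]
      exact ⟨s, t', rfl⟩
  rcases le_total p.length q.length with h | h
  · exact key p q hp hp' hq hq' h
  · exact (key q p hq hq' hp hp' h).symm

theorem ncard_concat_le (w : List A) (x : A) :
    (pals (w ++ [x])).ncard ≤ (pals w).ncard + 1 := by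
  classical
  by_cases h : ∃ p ∈ pals (w ++ [x]), ¬ p <:+: w
  · obtain ⟨p, hp, hp'⟩ := h
    have : pals (w ++ [x]) ⊆ insert p (pals w) := by
      intro q hq
      by_cases hq' : q <:+: w
      · exact Or.inr ⟨hq', hq.2⟩
      · exact Or.inl (new_pal_unique hq hq' hp hp')
    calc (pals (w ++ [x])).ncard ≤ (insert p (pals w)).ncard :=
          Set.ncard_le_ncard this ((pals_finite w).insert p)
      _ ≤ _ := Set.ncard_insert_le _ _
  · push Not at h
    have : pals (w ++ [x]) ⊆ pals w := fun q hq => ⟨h q hq, hq.2⟩
    have := Set.ncard_le_ncard this (pals_finite w)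
    omega

theorem ncard_le (w : List A) : (pals w).ncard ≤ w.length + 1 := by
  induction w using List.reverseRecOn with
  | nil => simp [pals_nil]
  | append_singleton w x ih =>
    have := ncard_concat_le w x
    simp only [List.length_append, List.length_singleton]
    omega

theorem defect_concat (w : List A) (x : A) : defect w ≤ defect (w ++ [x]) := by
  have h1 := ncard_concat_le w x
  unfold defect
  simp only [List.length_append, List.length_singleton]
  omega

theorem defect_reverse (w : List A) : defect w.reverse = defect w := by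
  unfold defect
  rw [pals_reverse, List.length_reverse]

theorem defect_append (w t : List A) : defect w ≤ defect (w ++ t) := by
  induction t using List.reverseRecOn with
  | nil => simp
  | append_singleton t x ih =>
    rw [← List.append_assoc]
    exact ih.trans (defect_concat _ _)

theorem defect_prepend (w s : List A) : defect w ≤ defect (s ++ w) := by
  have := defect_append w.reverse s.reverse
  rw [← List.reverse_append, defect_reverse, defect_reverse] at this
  exact this

theorem defect_mono {v w : List A} (h : v <:+: w) : defect v ≤ defect w := by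
  obtain ⟨s, t, rfl⟩ := h
  exact (defect_prepend v s).trans (defect_append _ _)

/-- If appending a letter does not change the defect, a new palindromic suffix appears. -/
theorem new_pal_of_defect_eq {w : List A} {x : A} (h : defect (w ++ [x]) = defect w) :
    ∃ s, s <:+ w ++ [x] ∧ s.reverse = s ∧ ¬ s <:+: w := by
  by_contra hc
  push Not at hc
  have hsub : pals (w ++ [x]) = pals w := by
    apply Set.Subset.antisymm
    · intro q hq
      rcases List.infix_concat_iff.1 hq.1 with h' | h'
      · exact ⟨hc q h' hq.2, hq.2⟩
      · exact ⟨h', hq.2⟩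
    · exact pals_mono ⟨[], [x], by simp⟩
  unfold defect at h
  rw [hsub] at h
  have := ncard_le w
  simp only [List.length_append, List.length_singleton] at h
  omega

/-! ### Returns -/

/-- Position `j` shows the same length-`n` factor as position `i`, up to reversal. -/
def Vis (u : ℕ → A) (n i j : ℕ) : Prop :=
  fac u j n = fac u i n ∨ fac u j n = (fac u i n).reverse

/-- All complete returns at level `n` (up to reversal) are palindromes. -/
def Ret (u : ℕ → A) (n : ℕ) : Prop :=
  ∀ i j, i < j → Vis u n i j → (∀ t, i < t → t < j → ¬ Vis u n i t) →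
    (fac u i (j - i + n)).reverse = fac u i (j - i + n)

theorem ret_of_defect {u : ℕ → A} (hu : UR u) {B : ℕ} (hB : ∀ w, Lang u w → defect w ≤ B) :
    ∃ N, ∀ n, N ≤ n → Ret u n := by
  classical
  -- a factor with maximal defect
  obtain ⟨w0, hw0, hmax⟩ : ∃ w0, Lang u w0 ∧ ∀ w, Lang u w → defect w ≤ defect w0 := by
    let S : Set ℕ := {d | ∃ w, Lang u w ∧ defect w = d}
    have hne : S.Nonempty := ⟨_, fac u 0 0, lang_fac _ _ _, rfl⟩
    have hbdd : BddAbove S := ⟨B, by rintro _ ⟨w, hw, rfl⟩; exact hB w hw⟩
    obtain ⟨w0, hw0, h0⟩ := Nat.sSup_mem hne hbdd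
    refine ⟨w0, hw0, fun w hw => ?_⟩
    rw [h0]
    exact le_csSup hbdd ⟨w, hw, rfl⟩
  obtain ⟨M, hM⟩ := hu w0 hw0
  refine ⟨M, fun n hn i j hij hvis hno => ?_⟩
  obtain ⟨r, hr⟩ : ∃ r, j - i + n = r + 1 := ⟨j - i + n - 1, by omega⟩
  rw [hr]
  have hcont : w0 <:+: fac u i r := (hM i).trans (fac_infix u le_rfl (by omega))
  have hd1 : defect (fac u i r) = defect w0 :=
    le_antisymm (hmax _ (lang_fac _ _ _)) (defect_mono hcont)
  have hd2 : defect (fac u i (r + 1)) = defect w0 :=
    le_antisymm (hmax _ (lang_fac _ _ _))
      (defect_mono (hcont.trans (fac_infix u le_rfl (by omega))))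
  have hd3 : defect (fac u i r ++ [u (i + r)]) = defect (fac u i r) := by
    rw [← fac_succ, hd1, hd2]
  obtain ⟨s, hs1, hs2, hs3⟩ := new_pal_of_defect_eq hd3
  rw [← fac_succ] at hs1
  obtain ⟨s', hs'⟩ := hs1
  have hsp : s' ++ s ++ [] = fac u i (r + 1) := by simpa using hs'
  obtain ⟨e1, e2, -, e4⟩ := fac_split hsp
  simp only [List.length_nil, Nat.add_zero] at e4
  set k := i + s'.length with hk
  by_cases hlen : s.length ≤ n
  · exfalso
    have hsj : s <:+: fac u j n := by
      rw [e2]; exact fac_infix u (by omega) (by omega)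
    apply hs3
    have hi : s <:+: fac u i n := by
      rcases hvis with h | h
      · rwa [h] at hsj
      · rw [h] at hsj
        have := List.reverse_infix.2 hsj
        rwa [hs2, List.reverse_reverse] at this
    exact hi.trans (fac_infix u le_rfl (by omega))
  · push Not at hlen
    -- the factor of length `n` at position `k` is the reversal of the one at `j`
    have hkn : fac u k n = (fac u j n).reverse := by
      have h1 : s = fac u k n ++ fac u (k + n) (s.length - n) := by
        rw [← fac_add]
        have : n + (s.length - n) = s.length := by omega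
        rw [this]; exact e2
      have h2 : s = fac u k (s.length - n) ++ fac u j n := by
        have h3 : k + (s.length - n) = j := by omega
        rw [← h3, ← fac_add]
        have : s.length - n + n = s.length := by omega
        rw [this]; exact e2
      have h4 : s = (fac u j n).reverse ++ (fac u k (s.length - n)).reverse := by
        rw [← List.reverse_append, ← h2, hs2]
      rw [h1] at h4
      exact (List.append_inj (h4) (by simp [fac_length])).1
    have hkv : Vis u n i k := by
      rcases hvis with h | h
      · right; rw [hkn, h]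
      · left; rw [hkn, h, List.reverse_reverse]
    have hki : k = i := by
      by_contra hne
      exact hno k (by omega) (by omega) hkv
    have hs'0 : s'.length = 0 := by omega
    have : s' = [] := List.length_eq_zero_iff.1 hs'0
    subst this
    simp only [List.nil_append] at hs'
    rw [← hs', hs2]

/-- The level-`n` quotient Rauzy graph has trivial first cohomology. -/
def Pot (u : ℕ → A) (n : ℕ) : Prop :=
  ∀ θ : List A → ℚ, (∀ z, θ z.reverse = - θ z) →
    ∃ G : List A → ℚ, (∀ w, G w.reverse = G w) ∧
      ∀ i, θ (fac u i (n + 1)) = G (fac u (i + 1) n) - G (fac u i n)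

theorem fac_eq_of_pal {u : ℕ → A} {i m : ℕ} (h : (fac u i m).reverse = fac u i m) {s : ℕ}
    (hs : s < m) : u (i + (m - 1 - s)) = u (i + s) := by
  have h1 : (fac u i m).reverse[s]'(by simp [fac_length, hs]) = u (i + (m - 1 - s)) := by
    rw [List.getElem_reverse]
    simp [fac_length, fac_getElem]
  have h2 : (fac u i m).reverse[s]'(by simp [fac_length, hs]) = u (i + s) := by
    simp only [h]
    rw [fac_getElem]
  rw [← h1, h2]

theorem fac_reverse_of_pal {u : ℕ → A} {i m : ℕ} (h : (fac u i m).reverse = fac u i m)
    {t l : ℕ} (ht : t + l ≤ m) : (fac u (i + t) l).reverse = fac u (i + (m - l - t)) l := by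
  apply List.ext_getElem
  · simp [fac_length]
  · intro k hk1 hk2
    rw [List.getElem_reverse]
    simp only [fac_length, List.length_reverse] at hk1 hk2 ⊢
    rw [fac_getElem, fac_getElem]
    have := fac_eq_of_pal h (s := t + (l - 1 - k)) (by omega)
    rw [Nat.add_assoc i, ← this]
    congr 1
    omega

theorem sum_pal {u : ℕ → A} {θ : List A → ℚ} (hθ : ∀ z, θ z.reverse = - θ z) {i d n : ℕ}
    (h : (fac u i (d + n)).reverse = fac u i (d + n)) :
    ∑ t ∈ Finset.range d, θ (fac u (i + t) (n + 1)) = 0 := by
  have h1 : ∑ t ∈ Finset.range d, θ (fac u (i + (d - 1 - t)) (n + 1)) =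
      ∑ t ∈ Finset.range d, θ (fac u (i + t) (n + 1)) :=
    Finset.sum_range_reflect (fun t => θ (fac u (i + t) (n + 1))) d
  have h2 : ∑ t ∈ Finset.range d, θ (fac u (i + (d - 1 - t)) (n + 1)) =
      - ∑ t ∈ Finset.range d, θ (fac u (i + t) (n + 1)) := by
    rw [← Finset.sum_neg_distrib]
    apply Finset.sum_congr rfl
    intro t ht
    have ht' := Finset.mem_range.1 ht
    rw [← hθ, fac_reverse_of_pal h (by omega)]
    congr 3
    omega
  linarith

theorem pot_of_ret {u : ℕ → A} {n : ℕ} (h : Ret u n) : Pot u n := by
  classical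
  intro θ hθ
  let S : ℕ → ℚ := fun j => ∑ t ∈ Finset.range j, θ (fac u t (n + 1))
  let V : List A → Set ℕ := fun w => {i | fac u i n = w ∨ fac u i n = w.reverse}
  let G : List A → ℚ := fun w => S (sInf (V w))
  have hV : ∀ w, V w.reverse = V w := by
    intro w
    ext i
    simp only [V, Set.mem_ofPred_eq, List.reverse_reverse]
    exact or_comm
  have hG : ∀ w, G w.reverse = G w := by
    intro w; simp only [G, hV]
  have key : ∀ j, G (fac u j n) = S j := by
    intro j
    induction j using Nat.strong_induction_on with
    | _ j ih =>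
      have hmem : j ∈ V (fac u j n) := Or.inl rfl
      have hmin := Nat.sInf_mem (s := V (fac u j n)) ⟨j, hmem⟩
      have hle : sInf (V (fac u j n)) ≤ j := Nat.sInf_le hmem
      rcases Nat.lt_or_ge (sInf (V (fac u j n))) j with hlt | hge
      · -- last visit before `j`
        have hex : ∃ i, i < j ∧ i ∈ V (fac u j n) := ⟨_, hlt, hmin⟩
        let i := Nat.findGreatest (fun i => i < j ∧ i ∈ V (fac u j n)) j
        have hi : i < j ∧ i ∈ V (fac u j n) := by
          obtain ⟨i0, h0⟩ := hex
          exact Nat.findGreatest_spec (P := fun i => i < j ∧ i ∈ V (fac u j n)) h0.1.le h0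
        have hmax : ∀ t, i < t → t < j → t ∉ V (fac u j n) := by
          intro t h1 h2 h3
          exact Nat.findGreatest_is_greatest (P := fun i => i < j ∧ i ∈ V (fac u j n)) h1 h2.le
            ⟨h2, h3⟩
        have hVe : V (fac u i n) = V (fac u j n) := by
          rcases hi.2 with h' | h'
          · rw [h']
          · rw [h', hV]
        have hvis : Vis u n i j := by
          have : j ∈ V (fac u i n) := by rw [hVe]; exact hmem
          exact this
        have hno : ∀ t, i < t → t < j → ¬ Vis u n i t := by
          intro t h1 h2 h3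
          apply hmax t h1 h2
          rw [← hVe]; exact h3
        have hpal := h i j hi.1 hvis hno
        have hsum := sum_pal hθ hpal
        have hGe : G (fac u j n) = G (fac u i n) := by simp only [G, hVe]
        rw [hGe, ih i hi.1]
        have hsplit : S j = S i + ∑ t ∈ Finset.range (j - i), θ (fac u (i + t) (n + 1)) := by
          have : j = i + (j - i) := by omega
          simp only [S]
          conv_lhs => rw [this]
          rw [Finset.sum_range_add]
        rw [hsplit, hsum, add_zero]
      · have : sInf (V (fac u j n)) = j := le_antisymm hle hge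
        simp only [G, this]
  refine ⟨G, hG, fun i => ?_⟩
  rw [key, key]
  simp only [S, Finset.sum_range_succ]
  ring

/-! ### From potentials back to zero defect -/

theorem vis_sum {u : ℕ → A} {n : ℕ} {θ G : List A → ℚ}
    (hG : ∀ i, θ (fac u i (n + 1)) = G (fac u (i + 1) n) - G (fac u i n)) (i d : ℕ) :
    ∑ t ∈ Finset.range d, θ (fac u (i + t) (n + 1)) = G (fac u (i + d) n) - G (fac u i n) := by
  induction d with
  | zero => simp
  | succ d ih =>
    rw [Finset.sum_range_succ, ih, hG]
    rw [Nat.add_assoc]
    ring

theorem ret_of_pot {u : ℕ → A} (h : ∀ n, Pot u n) : ∀ n, Ret u n := by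
  classical
  have main : ∀ d n i, 0 < d → Vis u n i (i + d) →
      (∀ t, i < t → t < i + d → ¬ Vis u n i t) →
      (fac u i (d + n)).reverse = fac u i (d + n) := by
    intro d
    induction d with
    | zero => intro n i h0; omega
    | succ d ih =>
      intro n i _ hvis hno
      let z := fac u i (n + 1)
      by_cases hz : z.reverse = z
      · -- then `d = 0`
        have hv1 : Vis u n i (i + 1) := by
          right
          have h1 : z = fac u i n ++ [u (i + n)] := fac_succ _ _ _
          have h2 : z = u i :: fac u (i + 1) n := fac_cons _ _ _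
          have h3 : z.reverse = (fac u (i + 1) n).reverse ++ [u i] := by
            rw [h2]; simp
          rw [hz, h1] at h3
          have h4 := (List.append_inj' h3 rfl).1
          rw [h4, List.reverse_reverse]
        have hd : d = 0 := by
          by_contra hne
          exact hno (i + 1) (by omega) (by omega) hv1
        subst hd
        have : 0 + 1 + n = n + 1 := by omega
        rw [this]; exact hz
      · let θ : List A → ℚ := fun x => (if x = z then 1 else 0) - (if x.reverse = z then 1 else 0)
        have hθ : ∀ x, θ x.reverse = - θ x := by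
          intro x
          simp only [θ, List.reverse_reverse]
          ring
        obtain ⟨G, hG1, hG2⟩ := h n θ hθ
        have hs := vis_sum hG2 i (d + 1)
        have hGe : G (fac u (i + (d + 1)) n) = G (fac u i n) := by
          rcases hvis with h' | h'
          · rw [h']
          · rw [h', hG1]
        rw [hGe, sub_self] at hs
        rw [Finset.sum_range_succ'] at hs
        have hz0 : θ (fac u (i + 0) (n + 1)) = 1 := by
          simp only [θ, Nat.add_zero]
          rw [if_pos rfl, if_neg hz]; norm_num
        rw [hz0] at hs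
        have hex : ∃ t ∈ Finset.range d, θ (fac u (i + (t + 1)) (n + 1)) < 0 := by
          by_contra hcon
          push Not at hcon
          have := Finset.sum_nonneg hcon
          linarith
        obtain ⟨t, ht, hneg⟩ := hex
        have ht' := Finset.mem_range.1 ht
        have hrev : (fac u (i + (t + 1)) (n + 1)).reverse = z := by
          by_contra hne
          simp only [θ, if_neg hne] at hneg
          split_ifs at hneg <;> norm_num at hneg
        have hv : Vis u n i (i + (t + 1) + 1) := by
          right
          have h1 : z = fac u i n ++ [u (i + n)] := fac_succ _ _ _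
          have h2 : fac u (i + (t + 1)) (n + 1) = u (i + (t + 1)) :: fac u (i + (t + 1) + 1) n :=
            fac_cons _ _ _
          rw [h2, h1, List.reverse_cons] at hrev
          have h4 := (List.append_inj' hrev rfl).1
          rw [← h4, List.reverse_reverse]
        have htd : t + 1 = d := by
          by_contra hne
          exact hno (i + (t + 1) + 1) (by omega) (by omega) hv
        have hvis' : Vis u (n + 1) i (i + d) := by
          right
          rw [← htd]
          have : fac u i (n + 1) = z := rfl
          rw [this, ← hrev, List.reverse_reverse]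
        have hno' : ∀ s, i < s → s < i + d → ¬ Vis u (n + 1) i s := by
          intro s h1 h2 h3
          rcases h3 with h3 | h3
          · apply hno s h1 (by omega)
            left
            rw [fac_succ, fac_succ] at h3
            exact (List.append_inj' h3 rfl).1
          · apply hno (s + 1) (by omega) (by omega)
            right
            rw [fac_cons, fac_succ, List.reverse_append] at h3
            simp only [List.reverse_cons, List.reverse_nil, List.nil_append,
              List.singleton_append, List.cons.injEq] at h3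
            exact h3.2
        have := ih (n + 1) i (by omega) hvis' hno'
        have he : d + 1 + n = d + (n + 1) := by omega
        rw [he]; exact this
  intro n i j hij hvis hno
  obtain ⟨d, rfl⟩ := Nat.exists_eq_add_of_le hij.le
  have : i + d - i = d := by omega
  rw [this]
  exact main d n i (by omega) hvis hno

theorem defect_zero_of_ret {u : ℕ → A} (h : ∀ n, Ret u n) (i n : ℕ) :
    defect (fac u i n) = 0 := by
  classical
  have key : ∀ n, (pals (fac u i n)).ncard = n + 1 := by
    intro n
    induction n with
    | zero => rw [fac_zero, pals_nil]; simp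
    | succ n ih =>
      -- longest palindromic suffix, via the least starting position
      let P : ℕ → Prop := fun k => k ≤ n ∧
        (fac u (i + k) (n + 1 - k)).reverse = fac u (i + k) (n + 1 - k)
      have hex : ∃ k, P k := ⟨n, le_rfl, by
        have : n + 1 - n = 1 := by omega
        rw [this]; simp [fac]⟩
      let k := Nat.find hex
      have hk : P k := Nat.find_spec hex
      have hmin : ∀ t, t < k → ¬ P t := fun t ht => Nat.find_min hex ht
      let s := fac u (i + k) (n + 1 - k)
      have hsl : s.length = n + 1 - k := fac_length _ _ _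
      have hnot : ¬ s <:+: fac u i n := by
        rintro ⟨a, b, hab⟩
        obtain ⟨-, h2, -, h4⟩ := fac_split hab
        rw [hsl] at h4 h2
        -- last visit to `s` strictly before position `i + k`
        let Q : ℕ → Prop := fun t => t < k ∧ fac u (i + t) (n + 1 - k) = s
        have hQ0 : Q a.length := ⟨by omega, h2.symm⟩
        let t := Nat.findGreatest Q k
        have ht : Q t := Nat.findGreatest_spec (P := Q) hQ0.1.le hQ0
        have htmax : ∀ r, t < r → r ≤ k → ¬ Q r := fun r h1 h2 =>
          Nat.findGreatest_is_greatest (P := Q) h1 h2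
        have hret := h (n + 1 - k) (i + t) (i + k) (by have := ht.1; omega)
          (Or.inl (by rw [ht.2])) (by
            intro r h1 h2 h3
            obtain ⟨q, rfl⟩ := Nat.exists_eq_add_of_le (show i ≤ r by omega)
            apply htmax q (by omega) (by omega)
            refine ⟨by omega, ?_⟩
            rcases h3 with h3 | h3
            · rw [h3, ht.2]
            · rw [h3, ht.2]; exact hk.2)
        have he : i + k - (i + t) + (n + 1 - k) = n + 1 - t := by
          have := ht.1; have := hk.1; omega
        rw [he] at hret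
        exact hmin t ht.1 ⟨by have := ht.1; have := hk.1; omega, hret⟩
      have hmem : s ∈ pals (fac u i (n + 1)) :=
        ⟨fac_infix u (by omega) (by have := hk.1; omega), hk.2⟩
      have heq : pals (fac u i (n + 1)) = insert s (pals (fac u i n)) := by
        apply Set.Subset.antisymm
        · intro q hq
          by_cases hq' : q <:+: fac u i n
          · exact Or.inr ⟨hq', hq.2⟩
          · left
            rw [fac_succ] at hq hmem
            exact new_pal_unique hq hq' hmem hnot
        · intro q hq
          rcases hq with rfl | hq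
          · exact hmem
          · exact pals_mono (fac_infix u le_rfl (by omega)) hq
      rw [heq, Set.ncard_insert_of_notMem (fun hh => hnot hh.1) (pals_finite _), ih]
  unfold defect
  rw [key, fac_length]
  omega

/-! ### Extension graphs -/

/-- The bipartite extension graph of `w` is a forest (dual formulation by potentials). -/
def F0 (u : ℕ → A) (w : List A) : Prop :=
  ∀ θ : A → A → ℚ, ∃ gL gR : A → ℚ, ∀ a b, Lang u (a :: (w ++ [b])) → θ a b = gR b - gL a

/-- The (folded, if `w` is a palindrome) extension graph of `w` is a forest. -/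
def FF (u : ℕ → A) (w : List A) : Prop :=
  ∀ θ : A → A → ℚ, (w.reverse = w → ∀ a b, θ b a = - θ a b) →
    ∃ gL gR : A → ℚ, ∀ a b, Lang u (a :: (w ++ [b])) → θ a b = gR b - gL a

theorem FF_of_F0 {u : ℕ → A} {w : List A} (h : F0 u w) : FF u w := fun θ _ => h θ

theorem F0_of_FF {u : ℕ → A} {w : List A} (hw : w.reverse ≠ w) (h : FF u w) : F0 u w :=
  fun θ => h θ (fun h' => absurd h' hw)

theorem pot_zero (u : ℕ → A) : Pot u 0 := by
  intro θ hθ
  refine ⟨fun _ => 0, fun _ => rfl, fun i => ?_⟩
  have h1 : fac u i (0 + 1) = [u i] := by simp [fac]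
  have := hθ [u i]
  rw [h1]
  simp only [List.reverse_singleton] at this
  linarith

theorem lang_length {u : ℕ → A} {z : List A} (h : Lang u z) :
    ∃ i, z = fac u i z.length := h

/-- The middle part of a word. -/
def mid (z : List A) : List A := z.tail.dropLast

theorem mid_cons_append (a b : A) (w : List A) : mid (a :: (w ++ [b])) = w := by
  simp [mid]

theorem mid_reverse (z : List A) : mid z.reverse = (mid z).reverse := by
  unfold mid
  rw [List.tail_reverse, List.dropLast_reverse, List.tail_dropLast]

theorem FF_of_pot {u : ℕ → A} {n : ℕ} (h : Pot u (n + 1)) {w : List A} (hw : w.length = n) :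
    FF u w := by
  classical
  intro θ hθ
  cases isEmpty_or_nonempty A with
  | inl he => exact ⟨fun _ => 0, fun _ => 0, fun a => (he.false a).elim⟩
  | inr hne =>
    let a0 : A := Classical.choice hne
    let hd : List A → A := fun z => z.head?.getD a0
    let tl : List A → A := fun z => z.getLast?.getD a0
    let Θ : List A → ℚ := fun z =>
      (if mid z = w then θ (hd z) (tl z) else 0) - (if (mid z).reverse = w then θ (tl z) (hd z) else 0)
    have hΘ : ∀ z, Θ z.reverse = - Θ z := by
      intro z
      have h1 : hd z.reverse = tl z := by simp [hd, tl]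
      have h2 : tl z.reverse = hd z := by simp [hd, tl]
      simp only [Θ, mid_reverse, List.reverse_reverse, h1, h2]
      ring
    obtain ⟨G, hG1, hG2⟩ := h Θ hΘ
    have hz : ∀ a b, Lang u (a :: (w ++ [b])) →
        Θ (a :: (w ++ [b])) = G (w ++ [b]) - G (a :: w) := by
      intro a b hab
      obtain ⟨i, hi⟩ := hab
      have hlen : (a :: (w ++ [b])).length = n + 1 + 1 := by simp [hw]
      rw [hlen] at hi
      have h1 : fac u (i + 1) (n + 1) = w ++ [b] := by
        have : fac u i (n + 1 + 1) = u i :: fac u (i + 1) (n + 1) := fac_cons _ _ _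
        rw [this] at hi
        exact ((List.cons.inj hi).2).symm
      have h2 : fac u i (n + 1) = a :: w := by
        have h3 : fac u i (n + 1 + 1) = fac u i (n + 1) ++ [u (i + (n + 1))] := fac_succ _ _ _
        rw [h3] at hi
        have h4 : (a :: w) ++ [b] = fac u i (n + 1) ++ [u (i + (n + 1))] := by
          rw [← hi]; simp
        exact ((List.append_inj' h4 rfl).1).symm
      have := hG2 i
      rw [← hi, h1, h2] at this
      exact this
    have hhd : ∀ a b, hd (a :: (w ++ [b])) = a := by intro a b; simp [hd]
    have htl : ∀ a b, tl (a :: (w ++ [b])) = b := by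
      intro a b
      have : a :: (w ++ [b]) = (a :: w) ++ [b] := by simp
      simp only [tl, this, List.getLast?_append]
      simp
    by_cases hp : w.reverse = w
    · refine ⟨fun a => G (a :: w) / 2, fun b => G (w ++ [b]) / 2, fun a b hab => ?_⟩
      have := hz a b hab
      simp only [Θ, mid_cons_append, hhd, htl, hp, if_true] at this
      rw [hθ hp a b] at this
      linarith
    · refine ⟨fun a => G (a :: w), fun b => G (w ++ [b]), fun a b hab => ?_⟩
      have := hz a b hab
      simp only [Θ, mid_cons_append, hhd, htl, if_true, if_neg hp] at this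
      linarith

theorem pot_succ {u : ℕ → A} (hrev : ∀ w, Lang u w → Lang u w.reverse) {n : ℕ} (h : Pot u n)
    (hF : ∀ w : List A, w.length = n → FF u w) : Pot u (n + 1) := by
  classical
  intro θ hθ
  have a0 : A := u 0
  -- choose potentials on all extension graphs
  have hch : ∀ w : List A, ∃ g : (A → ℚ) × (A → ℚ), w.length = n →
      ∀ a b, Lang u (a :: (w ++ [b])) → θ (a :: (w ++ [b])) = g.2 b - g.1 a := by
    intro w
    by_cases hw : w.length = n
    · obtain ⟨gL, gR, hg⟩ := hF w hw (fun a b => θ (a :: (w ++ [b]))) (by
        intro hp a b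
        rw [← hθ]
        congr 1
        simp [hp])
      exact ⟨(gL, gR), fun _ => hg⟩
    · exact ⟨(fun _ => 0, fun _ => 0), fun h' => absurd h' hw⟩
  choose g hg using hch
  let L : List A → A → ℚ := fun w a => ((g w).1 a + (g w.reverse).2 a) / 2
  have hL : ∀ w a b, w.length = n → Lang u (a :: (w ++ [b])) →
      θ (a :: (w ++ [b])) = L w.reverse b - L w a := by
    intro w a b hw hab
    have h1 := hg w hw a b hab
    have h2 := hg w.reverse (by simpa using hw) b a (by
      have := hrev _ hab
      simpa using this)
    have h3 : θ (b :: (w.reverse ++ [a])) = - θ (a :: (w ++ [b])) := by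
      rw [← hθ]; congr 1; simp
    rw [h3] at h2
    simp only [L, List.reverse_reverse]
    linarith
  let hd : List A → A := fun z => z.head?.getD a0
  let tl : List A → A := fun z => z.getLast?.getD a0
  have hhdr : ∀ z, hd z.reverse = tl z := by intro z; simp [hd, tl]
  have htlr : ∀ z, tl z.reverse = hd z := by intro z; simp [hd, tl]
  let lam : List A → ℚ := fun y => L y.tail (hd y)
  obtain ⟨G, hG1, hG2⟩ := h (fun y => lam y - lam y.reverse) (by
    intro z; simp only [List.reverse_reverse]; ring)
  refine ⟨fun y => ((lam y - G y.tail) + (lam y.reverse - G y.reverse.tail)) / 2, ?_, ?_⟩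
  · intro y
    simp only [List.reverse_reverse]
    ring
  · intro i
    -- `fac u i (n+2) = a w b`
    set w := fac u (i + 1) n with hw
    set a := u i with ha
    set b := u (i + (n + 1)) with hb
    have hz : fac u i (n + 1 + 1) = a :: (w ++ [b]) := by
      rw [fac_cons, fac_succ]
      have : i + 1 + n = i + (n + 1) := by omega
      rw [this]
    have hy0 : fac u i (n + 1) = a :: w := fac_cons _ _ _
    have hy1 : fac u (i + 1) (n + 1) = w ++ [b] := by
      rw [fac_succ]
      have : i + 1 + n = i + (n + 1) := by omega
      rw [this]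
    have hwl : w.length = n := fac_length _ _ _
    have hθz := hL w a b hwl (by rw [← hz]; exact lang_fac _ _ _)
    -- relation from `Pot u n`
    have r0 := hG2 i
    have r1 := hG2 (i + 1)
    rw [hy0] at r0
    rw [hy1] at r1
    have e0 : fac u i n = (a :: w).dropLast := by
      rw [← hy0, fac_succ]; simp
    have e1 : fac u (i + 1 + 1) n = (w ++ [b]).tail := by
      rw [← hy1, fac_cons]; simp
    rw [e0] at r0
    rw [e1] at r1
    have t1 : G (a :: w).reverse.tail = G (a :: w).dropLast := by
      rw [List.tail_reverse, hG1]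
    have t2 : G (w ++ [b]).reverse.tail = G w := by
      rw [List.tail_reverse, hG1]; simp
    have t3 : (a :: w).tail = w := rfl
    have hlam1 : lam (a :: w) = L w a := by simp [lam, hd]
    have hlam2 : lam (w ++ [b]).reverse = L w.reverse b := by simp [lam, hd]
    rw [hz, hy0, hy1, hθz]
    simp only [t1, t2, t3]
    rw [hlam1] at r0 ⊢
    rw [hlam2] at r1 ⊢
    linarith

/-! ### Morphisms -/

theorem ap_nil (φ : A → List A) : ap φ [] = [] := rfl

theorem ap_append (φ : A → List A) (x y : List A) : ap φ (x ++ y) = ap φ x ++ ap φ y := by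
  simp [ap]

theorem ap_cons (φ : A → List A) (a : A) (x : List A) : ap φ (a :: x) = φ a ++ ap φ x := by
  simp [ap]

theorem ap_single (φ : A → List A) (a : A) : ap φ [a] = φ a := by simp [ap]

theorem iter_nil (φ : A → List A) (k : ℕ) : (ap φ)^[k] [] = [] := by
  induction k with
  | zero => rfl
  | succ k ih => rw [Function.iterate_succ_apply, ap_nil, ih]

theorem iter_append (φ : A → List A) (k : ℕ) (x y : List A) :
    (ap φ)^[k] (x ++ y) = (ap φ)^[k] x ++ (ap φ)^[k] y := by
  induction k generalizing x y with
  | zero => rfl
  | succ k ih => rw [Function.iterate_succ_apply, ap_append, ih,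
      Function.iterate_succ_apply, Function.iterate_succ_apply]

theorem iter_sub (φ : A → List A) (k : ℕ) {x y : List A} (h : x <:+: y) :
    (ap φ)^[k] x <:+: (ap φ)^[k] y := by
  obtain ⟨s, t, rfl⟩ := h
  rw [iter_append, iter_append]
  exact ⟨_, _, rfl⟩

theorem ap_sub (φ : A → List A) {x y : List A} (h : x <:+: y) :
    ap φ x <:+: ap φ y := iter_sub φ 1 h

/-- Nonerasing. -/
theorem nonerasing_of_primitive {φ : A → List A} (h : Primitive φ) (a : A) : φ a ≠ [] := by
  intro h0
  obtain ⟨k, hk, hk'⟩ := h
  obtain ⟨m, rfl⟩ : ∃ m, k = m + 1 := ⟨k - 1, by omega⟩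
  have := hk' a a
  rw [Function.iterate_succ_apply, ap_single, h0, iter_nil] at this
  simp at this

theorem length_ap_ge {φ : A → List A} (h : ∀ a, φ a ≠ []) (w : List A) :
    w.length ≤ (ap φ w).length := by
  induction w with
  | nil => simp
  | cons a w ih =>
    rw [ap_cons, List.length_append, List.length_cons]
    have := List.length_pos_of_ne_nil (h a)
    omega

theorem length_iter_mono {φ : A → List A} (h : ∀ a, φ a ≠ []) (w : List A) {k l : ℕ}
    (hkl : k ≤ l) : ((ap φ)^[k] w).length ≤ ((ap φ)^[l] w).length := by
  induction l, hkl using Nat.le_induction with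
  | base => exact le_rfl
  | succ l _ ih =>
    rw [Function.iterate_succ_apply']
    exact ih.trans (length_ap_ge h _)

theorem growth [Nontrivial A] {φ : A → List A} (h : Primitive φ) (M : ℕ) :
    ∃ K, ∀ k, K ≤ k → ∀ v : List A, v ≠ [] → M ≤ ((ap φ)^[k] v).length := by
  classical
  have hne := nonerasing_of_primitive h
  obtain ⟨k0, hk0, hk0'⟩ := h
  have h1 : ∀ v : List A, 2 * v.length ≤ ((ap φ)^[k0] v).length := by
    intro v
    induction v with
    | nil => simp
    | cons a v ih =>
      have e : a :: v = [a] ++ v := rfl
      rw [e, iter_append, List.length_append, List.length_append]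
      have h2 : 2 ≤ ((ap φ)^[k0] [a]).length := by
        obtain ⟨b, hb⟩ := exists_ne a
        have hma := hk0' a a
        have hmb := hk0' a b
        by_contra hlt
        push Not at hlt
        have hle : ((ap φ)^[k0] [a]).length ≤ 1 := by omega
        rcases hl : (ap φ)^[k0] [a] with _ | ⟨c, _ | ⟨d, t⟩⟩
        · rw [hl] at hma; simp at hma
        · rw [hl] at hma hmb
          simp only [List.mem_singleton] at hma hmb
          exact hb (hmb.trans hma.symm)
        · rw [hl] at hle
          simp at hle
      simp only [List.length_singleton]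
      omega
  have h2 : ∀ j, ∀ v : List A, 2 ^ j * v.length ≤ (((ap φ)^[k0])^[j] v).length := by
    intro j
    induction j with
    | zero => intro v; simp
    | succ j ih =>
      intro v
      rw [Function.iterate_succ_apply]
      calc 2 ^ (j + 1) * v.length = 2 ^ j * (2 * v.length) := by ring
        _ ≤ 2 ^ j * ((ap φ)^[k0] v).length := Nat.mul_le_mul_left _ (h1 v)
        _ ≤ _ := ih _
  refine ⟨k0 * M, fun k hk v hv => ?_⟩
  have h3 := length_iter_mono hne v hk
  rw [Function.iterate_mul] at h3
  have h4 := h2 M v
  have h5 : M < 2 ^ M := Nat.lt_two_pow_self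
  have h6 := List.length_pos_of_ne_nil hv
  calc M ≤ 2 ^ M * 1 := by omega
    _ ≤ 2 ^ M * v.length := Nat.mul_le_mul_left _ h6
    _ ≤ _ := h4
    _ ≤ _ := h3

theorem iter_fixed {φ : A → List A} {u : ℕ → A} (hu : IsFixed φ u) (k n : ℕ) :
    (ap φ)^[k] (fac u 0 n) = fac u 0 ((ap φ)^[k] (fac u 0 n)).length := by
  induction k with
  | zero => simp [fac_length]
  | succ k ih =>
    rw [Function.iterate_succ_apply']
    rw [ih]
    exact hu _

theorem lang_iter {φ : A → List A} {u : ℕ → A} (hu : IsFixed φ u) (k : ℕ) {w : List A}
    (hw : Lang u w) : Lang u ((ap φ)^[k] w) := by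
  obtain ⟨i, hi⟩ := hw
  have h1 : Lang u ((ap φ)^[k] (fac u 0 (i + w.length))) := by
    rw [iter_fixed hu]; exact lang_fac _ _ _
  refine h1.sub (iter_sub φ k ?_)
  rw [hi]
  exact fac_infix u (by omega) (by rw [fac_length]; omega)

theorem lang_ap {φ : A → List A} {u : ℕ → A} (hu : IsFixed φ u) {w : List A}
    (hw : Lang u w) : Lang u (ap φ w) := lang_iter hu 1 hw

theorem ur_of_primitive [Finite A] [Nontrivial A] {φ : A → List A} (h : Primitive φ) {u : ℕ → A}
    (hu : IsFixed φ u) : UR u := by
  classical
  have := Fintype.ofFinite A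
  have hne := nonerasing_of_primitive h
  intro x hx
  obtain ⟨i0, hi0⟩ := hx
  obtain ⟨K, hK⟩ := growth h (i0 + x.length)
  obtain ⟨k0, hk0, hk0'⟩ := h
  have hc : x <:+: (ap φ)^[K] [u 0] := by
    have h1 : fac u 0 1 = [u 0] := by simp [fac]
    have h2 := iter_fixed hu K 1
    rw [h1] at h2
    have h3 := hK K le_rfl [u 0] (by simp)
    rw [h2, hi0]
    exact fac_infix u (by omega) (by omega)
  let g : List A → List A := (ap φ)^[K + k0]
  have hg : ∀ a, x <:+: g [a] := by
    intro a
    have h1 : [u 0] <:+: (ap φ)^[k0] [a] := by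
      obtain ⟨s, t, hst⟩ := List.append_of_mem (hk0' a (u 0))
      exact ⟨s, t, by rw [hst]; simp⟩
    have h2 := iter_sub φ K h1
    have h3 : g [a] = (ap φ)^[K] ((ap φ)^[k0] [a]) := by
      simp only [g]; rw [Function.iterate_add_apply]
    rw [h3]
    exact hc.trans h2
  let Mx : ℕ := ∑ a : A, (g [a]).length
  have hMx : ∀ a, (g [a]).length ≤ Mx := fun a =>
    Finset.single_le_sum (f := fun a => (g [a]).length) (fun _ _ => Nat.zero_le _)
      (Finset.mem_univ a)
  let e : ℕ → ℕ := fun j => (g (fac u 0 j)).length
  have he0 : e 0 = 0 := by simp only [e, g, fac_zero, iter_nil, List.length_nil]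
  have hes : ∀ j, g (fac u 0 (j + 1)) = g (fac u 0 j) ++ g [u j] := by
    intro j
    simp only [g]
    rw [fac_succ, iter_append, Nat.zero_add]
  have hej : ∀ j, e (j + 1) = e j + (g [u j]).length := by
    intro j
    simp only [e]
    rw [hes, List.length_append]
  have hfac : ∀ j, g [u j] = fac u (e j) (g [u j]).length := by
    intro j
    have h1 := iter_fixed hu (K + k0) (j + 1)
    have h2 : g (fac u 0 j) ++ g [u j] ++ [] = fac u 0 (g (fac u 0 (j + 1))).length := by
      rw [List.append_nil, ← hes]; exact h1
    have h3 := (fac_split h2).2.1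
    rw [Nat.zero_add] at h3
    exact h3
  have hge : ∀ j, j ≤ e j := by
    intro j
    have h1 := length_iter_mono hne (fac u 0 j) (Nat.zero_le (K + k0))
    simp only [Function.iterate_zero, id_eq, fac_length] at h1
    exact h1
  refine ⟨2 * Mx, fun i => ?_⟩
  have hex : ∃ j, i ≤ e j := ⟨i, hge i⟩
  let j := Nat.find hex
  have hj : i ≤ e j := Nat.find_spec hex
  have hj2 : e j ≤ i + Mx := by
    rcases Nat.eq_zero_or_pos j with h0 | h0
    · rw [h0, he0]; omega
    · obtain ⟨m, hm⟩ : ∃ m, j = m + 1 := ⟨j - 1, by omega⟩
      have h1 : ¬ i ≤ e m := Nat.find_min hex (show m < j by omega)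
      rw [hm, hej]
      have := hMx (u m)
      omega
  have h4 := hMx (u j)
  refine (hg (u j)).trans ?_
  rw [hfac j]
  exact fac_infix u hj (by omega)

theorem lang_letter {φ : A → List A} (h : Primitive φ) {u : ℕ → A}
    (hu : IsFixed φ u) (b : A) : Lang u [b] := by
  obtain ⟨k0, hk0, hk0'⟩ := h
  have h1 : fac u 0 1 = [u 0] := by simp [fac]
  have h2 := iter_fixed hu k0 1
  rw [h1] at h2
  have h3 := hk0' (u 0) b
  have h4 : Lang u ((ap φ)^[k0] [u 0]) := by rw [h2]; exact lang_fac _ _ _
  refine h4.sub ?_
  obtain ⟨s, t, hst⟩ := List.append_of_mem h3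
  exact ⟨s, t, by rw [hst]; simp⟩

/-- If the defect is finite, the language is closed under reversal. -/
theorem lang_reverse [Finite A] {u : ℕ → A} (hu : UR u) {B : ℕ}
    (hB : ∀ w, Lang u w → defect w ≤ B) {w : List A} (hw : Lang u w) : Lang u w.reverse := by
  classical
  obtain ⟨M, hM⟩ := hu w hw
  -- there is a palindrome of length at least `M`
  obtain ⟨p, hp, hp1, hp2⟩ : ∃ p, Lang u p ∧ p.reverse = p ∧ M ≤ p.length := by
    by_contra hcon
    push Not at hcon
    have hfin : {l : List A | l.length < M}.Finite := List.finite_length_lt A M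
    have hbound : ∀ n, n + 1 ≤ B + {l : List A | l.length < M}.ncard := by
      intro n
      have h1 := hB _ (lang_fac u 0 n)
      have h2 : (pals (fac u 0 n)).ncard ≤ {l : List A | l.length < M}.ncard := by
        apply Set.ncard_le_ncard _ hfin
        intro p hp
        exact hcon p ((lang_fac u 0 n).sub hp.1) hp.2
      have h3 := ncard_le (fac u 0 n)
      unfold defect at h1
      rw [fac_length] at h1 h3
      omega
    have := hbound (B + {l : List A | l.length < M}.ncard)
    omega
  obtain ⟨i, hi⟩ := hp
  have h1 : w <:+: p := by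
    rw [hi]
    exact (hM i).trans (fac_infix u le_rfl (by omega))
  have h2 : w.reverse <:+: p := by
    have := List.reverse_infix.2 h1
    rwa [hp1] at this
  have hp' : Lang u p := ⟨i, hi⟩
  exact hp'.sub h2

/-! ### The stationary case: the graph of letters -/

/-- Sum of `θ` over adjacent pairs of letters. -/
def adj (θ : A → A → ℚ) : List A → ℚ
  | [] => 0
  | [_] => 0
  | a :: b :: l => θ a b + adj θ (b :: l)

theorem adj_append (θ : A → A → ℚ) (x : List A) (a b : A) (y : List A) :
    adj θ ((x ++ [a]) ++ (b :: y)) = adj θ (x ++ [a]) + θ a b + adj θ (b :: y) := by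
  induction x with
  | nil => simp [adj]
  | cons c x ih =>
    cases x with
    | nil => simp [adj]; ring
    | cons d x =>
      simp only [List.cons_append, adj] at ih ⊢
      rw [ih]; ring

theorem adj_reverse {θ : A → A → ℚ} (h : ∀ a b, θ b a = - θ a b) (l : List A) :
    adj θ l.reverse = - adj θ l := by
  induction l with
  | nil => simp [adj]
  | cons a l ih =>
    cases l with
    | nil => simp [adj]
    | cons b l =>
      have h1 : (a :: b :: l).reverse = (l.reverse ++ [b]) ++ (a :: []) := by simp
      rw [h1, adj_append]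
      have h2 : (b :: l).reverse = l.reverse ++ [b] := by simp
      rw [h2] at ih
      rw [ih, h a b]
      simp only [adj]
      ring

theorem head_iter {φ : A → List A} {π : Equiv.Perm A} (h : ∀ a, (φ a).head? = some (π a))
    (k : ℕ) (a : A) : ((ap φ)^[k] [a]).head? = some ((π ^ k) a) := by
  induction k with
  | zero => simp
  | succ k ih =>
    rw [Function.iterate_succ_apply', pow_succ', Equiv.Perm.mul_apply]
    obtain ⟨t, ht⟩ := List.head?_eq_some_iff.1 ih
    rw [ht, ap_cons]
    obtain ⟨t', ht'⟩ := List.head?_eq_some_iff.1 (h ((π ^ k) a))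
    rw [ht']; simp

theorem last_iter {φ : A → List A} {π : Equiv.Perm A} (h : ∀ a, (φ a).getLast? = some (π a))
    (k : ℕ) (a : A) : ((ap φ)^[k] [a]).getLast? = some ((π ^ k) a) := by
  induction k with
  | zero => simp
  | succ k ih =>
    rw [Function.iterate_succ_apply', pow_succ', Equiv.Perm.mul_apply]
    obtain ⟨t, ht⟩ := List.getLast?_eq_some_iff.1 ih
    rw [ht, ap_append, ap_single]
    obtain ⟨t', ht'⟩ := List.getLast?_eq_some_iff.1 (h ((π ^ k) a))
    rw [ht', ← List.append_assoc, List.getLast?_append]
    simp

theorem FF_nil_of_stationary [Finite A] [Nontrivial A] {φ : A → List A} (h : Primitive φ)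
    {u : ℕ → A} (hu : IsFixed φ u) (πl πr : Equiv.Perm A)
    (hl : ∀ a, (φ a).getLast? = some (πl a)) (hr : ∀ a, (φ a).head? = some (πr a))
    {m : ℕ} (hm : 1 ≤ m) (hpot : Pot u m) : FF u [] := by
  classical
  have := Fintype.ofFinite A
  intro θ hθ
  have hanti := hθ rfl
  obtain ⟨G, hG1, hG2⟩ := hpot (adj θ) (fun z => adj_reverse hanti z)
  obtain ⟨K, hK⟩ := growth h m
  obtain ⟨k, hk, hkl, hkr⟩ : ∃ k, K ≤ k ∧ πl ^ k = 1 ∧ πr ^ k = 1 := by
    refine ⟨Fintype.card (Equiv.Perm A) * K, ?_, ?_, ?_⟩
    · exact Nat.le_mul_of_pos_left _ Fintype.card_pos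
    · rw [pow_mul, pow_card_eq_one, one_pow]
    · rw [pow_mul, pow_card_eq_one, one_pow]
  let X : A → List A := fun a => (ap φ)^[k] [a]
  have hXl : ∀ a, m ≤ (X a).length := fun a => hK k hk [a] (by simp)
  have hXhd : ∀ a, (X a).head? = some a := by
    intro a
    have := head_iter hr k a
    rwa [hkr] at this
  have hXlt : ∀ a, (X a).getLast? = some a := by
    intro a
    have := last_iter hl k a
    rwa [hkl] at this
  let S : A → List A := fun a => (X a).drop ((X a).length - m)
  let P : A → List A := fun a => (X a).take m
  have hSl : ∀ a, (S a).length = m := by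
    intro a; simp only [S, List.length_drop]; have := hXl a; omega
  have hPl : ∀ a, (P a).length = m := by
    intro a; simp only [P, List.length_take]; have := hXl a; omega
  have key : ∀ a b, Lang u [a, b] →
      (∑ t ∈ Finset.range m, adj θ ((S a).drop t)) + m * θ a b +
        (∑ t ∈ Finset.range m, adj θ ((P b).take (t + 1))) = G (P b) - G (S a) := by
    intro a b hab
    have h1 : Lang u ((ap φ)^[k] [a, b]) := lang_iter hu k hab
    have h2 : (ap φ)^[k] [a, b] = X a ++ X b := by
      have : [a, b] = [a] ++ [b] := rfl
      rw [this, iter_append]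
    rw [h2] at h1
    have h3 : Lang u (S a ++ P b) := by
      refine h1.sub ⟨(X a).take ((X a).length - m), (X b).drop m, ?_⟩
      simp only [S, P]
      rw [← List.append_assoc, List.take_append_drop, List.append_assoc,
        List.take_append_drop]
    obtain ⟨e, he⟩ := h3
    rw [List.length_append, hSl, hPl, fac_add] at he
    obtain ⟨hS, hP⟩ := List.append_inj he (by rw [hSl, fac_length])
    have h4 := vis_sum hG2 e m
    rw [← hS, ← hP] at h4
    rw [← h4]
    have h5 : ∀ t ∈ Finset.range m, adj θ (fac u (e + t) (m + 1)) =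
        adj θ ((S a).drop t) + θ a b + adj θ ((P b).take (t + 1)) := by
      intro t ht
      have ht' := Finset.mem_range.1 ht
      have e1 : (S a).drop t = fac u (e + t) (m - t) := by
        rw [hS]
        have : m = t + (m - t) := by omega
        conv_lhs => rw [this, fac_add]
        rw [List.drop_left' (fac_length _ _ _)]
      have e2 : (P b).take (t + 1) = fac u (e + m) (t + 1) := by
        rw [hP]
        have : m = (t + 1) + (m - (t + 1)) := by omega
        conv_lhs => rw [show fac u (e + m) m = fac u (e + m) ((t + 1) + (m - (t + 1))) by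
          rw [← this]]
        rw [fac_add, List.take_left' (fac_length _ _ _)]
      have e3 : fac u (e + t) (m + 1) = (S a).drop t ++ (P b).take (t + 1) := by
        rw [e1, e2]
        have h6 : m + 1 = (m - t) + (t + 1) := by omega
        have h7 : e + t + (m - t) = e + m := by omega
        rw [h6, fac_add, h7]
      obtain ⟨x, hx⟩ : ∃ x, (S a).drop t = x ++ [a] := by
        apply List.getLast?_eq_some_iff.1
        rw [List.getLast?_drop, if_neg (by rw [hSl]; omega)]
        simp only [S]
        rw [List.getLast?_drop, if_neg (by have := hXl a; omega)]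
        exact hXlt a
      obtain ⟨y, hy⟩ : ∃ y, (P b).take (t + 1) = b :: y := by
        apply List.head?_eq_some_iff.1
        rw [List.head?_take, if_neg (by omega)]
        simp only [P]
        rw [List.head?_take, if_neg (by omega)]
        exact hXhd b
      rw [e3, hx, hy, adj_append]
    rw [Finset.sum_congr rfl h5, Finset.sum_add_distrib, Finset.sum_add_distrib,
      Finset.sum_const, Finset.card_range, nsmul_eq_mul]
  have hm0 : (m : ℚ) ≠ 0 := by
    have : (m : ℚ) ≥ 1 := by exact_mod_cast hm
    linarith
  refine ⟨fun a => (G (S a) + ∑ t ∈ Finset.range m, adj θ ((S a).drop t)) / m,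
    fun b => (G (P b) - ∑ t ∈ Finset.range m, adj θ ((P b).take (t + 1))) / m, ?_⟩
  intro a b hab
  have := key a b hab
  field_simp
  linarith

/-! ### Marked morphisms -/

theorem ap_conj {φ ψ : A → List A} {w : List A} (h : ∀ a, φ a ++ w = w ++ ψ a) (x : List A) :
    ap φ x ++ w = w ++ ap ψ x := by
  induction x with
  | nil => simp [ap_nil]
  | cons a x ih =>
    rw [ap_cons, ap_cons, List.append_assoc, ih, ← List.append_assoc, h, List.append_assoc]

theorem perm_of_surj [Finite A] {f : A → Option A} (h : ∀ b, ∃ a, f a = some b) :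
    ∃ π : Equiv.Perm A, ∀ a, f a = some (π a) := by
  choose g hg using h
  have hinj : Function.Injective g := by
    intro a b hab
    have h1 := hg a
    have h2 := hg b
    rw [hab, h2] at h1
    exact (Option.some.inj h1).symm
  let e : A ≃ A := Equiv.ofBijective g (Finite.injective_iff_bijective.1 hinj)
  refine ⟨e.symm, fun a => ?_⟩
  have h1 : g (e.symm a) = a := e.apply_symm_apply a
  have h2 := hg (e.symm a)
  rw [h1] at h2
  exact h2

/-- The data extracted from a marked morphism. -/
structure MData (φ : A → List A) where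
  φ₁ : A → List A
  φ₂ : A → List A
  p : List A
  q : List A
  hp : ∀ a, φ₁ a ++ p = p ++ φ a
  hq : ∀ a, φ a ++ q = q ++ φ₂ a
  πl : Equiv.Perm A
  πr : Equiv.Perm A
  hl : ∀ a, (φ₁ a).getLast? = some (πl a)
  hr : ∀ a, (φ₂ a).head? = some (πr a)

theorem exists_mdata [Finite A] [Nontrivial A] {φ : A → List A}
    (hm : Marked φ) : Nonempty (MData φ) := by
  obtain ⟨φ₁, φ₂, ⟨w1, h1⟩, ⟨w2, h2⟩, hl, hr⟩ := hm
  obtain ⟨πl, hπl⟩ := perm_of_surj hl
  obtain ⟨πr, hπr⟩ := perm_of_surj hr
  obtain ⟨x, y, hxy⟩ := exists_pair_ne A
  obtain ⟨p, hp⟩ : ∃ p, ∀ a, φ₁ a ++ p = p ++ φ a := by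
    rcases h1 with h1 | h1
    · rcases List.eq_nil_or_concat w1 with h0 | ⟨w', c, h0⟩
      · subst h0
        refine ⟨[], fun a => ?_⟩
        have := h1 a
        simp only [List.append_nil, List.nil_append] at this ⊢
        exact this.symm
      · exfalso
        have hc : ∀ a, πl a = c := by
          intro a
          have h3 := congrArg List.getLast? (h1 a)
          rw [h0] at h3
          rw [List.getLast?_append, List.getLast?_append, hπl a] at h3
          simp at h3
          exact h3.symm
        exact hxy (πl.injective ((hc x).trans (hc y).symm))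
    · exact ⟨w1, fun a => (h1 a).symm⟩
  obtain ⟨q, hq⟩ : ∃ q, ∀ a, φ a ++ q = q ++ φ₂ a := by
    rcases h2 with h2 | h2
    · exact ⟨w2, h2⟩
    · rcases w2 with _ | ⟨c, w'⟩
      · refine ⟨[], fun a => ?_⟩
        have := h2 a
        simp only [List.append_nil, List.nil_append] at this ⊢
        exact this
      · exfalso
        have hc : ∀ a, πr a = c := by
          intro a
          have h3 := congrArg List.head? (h2 a)
          obtain ⟨t, ht⟩ := List.head?_eq_some_iff.1 (hπr a)
          rw [ht] at h3
          simp at h3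
          exact h3.symm
        exact hxy (πr.injective ((hc x).trans (hc y).symm))
  exact ⟨⟨φ₁, φ₂, p, q, hp, hq, πl, πr, hπl, hπr⟩⟩

namespace MData

variable {φ : A → List A} (D : MData φ)

/-- The map `v ↦ Φ(v) = p φ(v) q`. -/
def Phi (v : List A) : List A := D.p ++ ap φ v ++ D.q

theorem Phi_eq2 (v : List A) : D.Phi v = (D.p ++ D.q) ++ ap D.φ₂ v := by
  unfold Phi
  rw [List.append_assoc, ap_conj D.hq, List.append_assoc]

theorem Phi_eq1 (v : List A) : D.Phi v = ap D.φ₁ v ++ (D.p ++ D.q) := by
  unfold Phi
  rw [← ap_conj D.hp, List.append_assoc]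

theorem length2 (a : A) : (D.φ₂ a).length = (φ a).length := by
  have := congrArg List.length (D.hq a)
  simp only [List.length_append] at this
  omega

theorem length1 (a : A) : (D.φ₁ a).length = (φ a).length := by
  have := congrArg List.length (D.hp a)
  simp only [List.length_append] at this
  omega

theorem ne2 (a : A) : D.φ₂ a ≠ [] := by
  intro h
  have := D.hr a
  rw [h] at this
  simp at this

include D in
theorem neφ (a : A) : φ a ≠ [] := by
  intro h
  have := D.length2 a
  rw [h] at this
  exact D.ne2 a (List.length_eq_zero_iff.1 this)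

theorem suffix_p {y : List A} (hy : D.p.length ≤ y.length) : D.p <:+ ap φ y := by
  have h1 : ap D.φ₁ y ++ D.p = D.p ++ ap φ y := ap_conj D.hp y
  have h2 := length_ap_ge D.neφ y
  refine List.suffix_of_suffix_length_le (l₃ := D.p ++ ap φ y) ?_ (List.suffix_append _ _)
    (by omega)
  rw [← h1]; exact List.suffix_append _ _

theorem prefix_q {y : List A} (hy : D.q.length ≤ y.length) : D.q <+: ap φ y := by
  have h1 : ap φ y ++ D.q = D.q ++ ap D.φ₂ y := ap_conj D.hq y
  have h2 := length_ap_ge D.neφ y
  refine List.prefix_of_prefix_length_le (l₃ := ap φ y ++ D.q) ?_ (List.prefix_append _ _)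
    (by omega)
  rw [h1]; exact List.prefix_append _ _

theorem lang_Phi {u : ℕ → A} (hu : IsFixed φ u) (hur : UR u) {z : List A} (hz : Lang u z) :
    Lang u (D.Phi z) := by
  obtain ⟨y, hy, hyz⟩ := hz.left hur D.p.length
  obtain ⟨y', hy', hyz'⟩ := hyz.right D.q.length
  have h1 := lang_ap hu hyz'
  rw [ap_append, ap_append] at h1
  obtain ⟨s, hs⟩ := D.suffix_p (y := y) (by omega)
  obtain ⟨t, ht⟩ := D.prefix_q (y := y') (by omega)
  refine h1.sub ⟨s, t, ?_⟩
  rw [← hs, ← ht]
  unfold Phi
  simp [List.append_assoc]

theorem ext {u : ℕ → A} (hu : IsFixed φ u) (hur : UR u) {v : List A} {a b : A}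
    (h : Lang u (a :: (v ++ [b]))) : Lang u (D.πl a :: (D.Phi v ++ [D.πr b])) := by
  have h1 := D.lang_Phi hu hur h
  obtain ⟨s, hs⟩ := List.getLast?_eq_some_iff.1 (D.hl a)
  obtain ⟨t, ht⟩ := List.head?_eq_some_iff.1 (D.hr b)
  refine h1.sub ⟨s, t, ?_⟩
  have h2 : D.Phi (a :: (v ++ [b])) = D.φ₁ a ++ (D.Phi v ++ D.φ₂ b) := by
    have e1 : D.Phi (a :: (v ++ [b])) = (D.p ++ φ a) ++ ap φ v ++ (φ b ++ D.q) := by
      unfold Phi
      rw [ap_cons, ap_append, ap_single]
      simp [List.append_assoc]
    rw [e1, ← D.hp, D.hq]
    unfold Phi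
    simp [List.append_assoc]
  rw [h2, hs, ht]
  simp [List.append_assoc]

theorem F0_desc {u : ℕ → A} (hu : IsFixed φ u) (hur : UR u) {v : List A}
    (h : F0 u (D.Phi v)) : F0 u v := by
  intro θ
  obtain ⟨gL, gR, hg⟩ := h (fun a b => θ (D.πl.symm a) (D.πr.symm b))
  refine ⟨fun a => gL (D.πl a), fun b => gR (D.πr b), fun a b hab => ?_⟩
  have := hg _ _ (D.ext hu hur hab)
  simpa using this

theorem F0_desc_iter {u : ℕ → A} (hu : IsFixed φ u) (hur : UR u) (k : ℕ) {v : List A}
    (h : F0 u (D.Phi^[k] v)) : F0 u v := by
  induction k generalizing v with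
  | zero => exact h
  | succ k ih =>
    rw [Function.iterate_succ_apply] at h
    exact D.F0_desc hu hur (ih h)

theorem reverse_ap (ψ : A → List A) (v : List A) :
    (ap ψ v).reverse = ap (fun a => (ψ a).reverse) v.reverse := by
  induction v with
  | nil => simp [ap_nil]
  | cons a v ih =>
    rw [ap_cons, List.reverse_append, ih, List.reverse_cons, ap_append, ap_single]

theorem Phi_reverse (v : List A) :
    (D.Phi v).reverse = (D.p ++ D.q).reverse ++ ap (fun a => (D.φ₁ a).reverse) v.reverse := by
  rw [Phi_eq1, List.reverse_append, reverse_ap]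

theorem ap2_injective : ∀ {x y : List A}, ap D.φ₂ x = ap D.φ₂ y → x = y := by
  intro x
  induction x with
  | nil =>
    intro y h
    cases y with
    | nil => rfl
    | cons b y =>
      exfalso
      rw [ap_nil, ap_cons] at h
      exact D.ne2 b (List.append_eq_nil_iff.1 h.symm).1
  | cons a x ih =>
    intro y h
    cases y with
    | nil =>
      exfalso
      rw [ap_nil, ap_cons] at h
      exact D.ne2 a (List.append_eq_nil_iff.1 h).1
    | cons b y =>
      rw [ap_cons, ap_cons] at h
      have hab : a = b := by
        obtain ⟨t, ht⟩ := List.head?_eq_some_iff.1 (D.hr a)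
        obtain ⟨t', ht'⟩ := List.head?_eq_some_iff.1 (D.hr b)
        have h1 := congrArg List.head? h
        rw [ht, ht'] at h1
        simp at h1
        exact h1
      subst hab
      rw [ih (List.append_cancel_left h)]

/-- Mirror-compatible data. -/
def MC : Prop := ∀ a, D.φ₂ a = (D.φ₁ a).reverse

theorem pal_of_MC (hD : D.MC) {v : List A} (h : (D.Phi v).reverse = D.Phi v) :
    v.reverse = v := by
  rw [Phi_reverse, Phi_eq2] at h
  have h1 := (List.append_inj h (by simp [Nat.add_comm])).2
  have h2 : (fun a => (D.φ₁ a).reverse) = D.φ₂ := by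
    funext a; exact (hD a).symm
  rw [h2] at h1
  exact D.ap2_injective h1

theorem MC_of_pal {x : List A} (hx : x.reverse = x) (hall : ∀ a, a ∈ x)
    (h : (D.Phi x).reverse = D.Phi x) : D.MC := by
  rw [Phi_reverse, Phi_eq2, hx] at h
  have h1 := (List.append_inj h (by simp [Nat.add_comm])).2
  have key : ∀ y : List A, ap (fun a => (D.φ₁ a).reverse) y = ap D.φ₂ y →
      ∀ a ∈ y, D.φ₂ a = (D.φ₁ a).reverse := by
    intro y
    induction y with
    | nil => intro _ a ha; simp at ha
    | cons b y ih =>
      intro hy a ha
      rw [ap_cons, ap_cons] at hy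
      have h2 := List.append_inj hy (by rw [List.length_reverse, D.length1, D.length2])
      rcases List.mem_cons.1 ha with rfl | ha
      · exact h2.1.symm
      · exact ih h2.2 a ha
  intro a
  exact key x h1 a (hall a)

theorem FF_desc {u : ℕ → A} (hu : IsFixed φ u) (hur : UR u) (hD : D.MC) {v : List A}
    (h : FF u (D.Phi v)) : FF u v := by
  by_cases hp : (D.Phi v).reverse = D.Phi v
  · have hv := D.pal_of_MC hD hp
    have hπ : ∀ a, D.πl a = D.πr a := by
      intro a
      have h1 := D.hr a
      rw [hD a, List.head?_reverse, D.hl a] at h1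
      exact Option.some.inj h1
    have hπe : D.πl = D.πr := Equiv.ext hπ
    intro θ hθ
    obtain ⟨gL, gR, hg⟩ := h (fun a b => θ (D.πl.symm a) (D.πr.symm b)) (by
      intro _ a b
      rw [hπe]
      exact hθ hv _ _)
    refine ⟨fun a => gL (D.πl a), fun b => gR (D.πr b), fun a b hab => ?_⟩
    have := hg _ _ (D.ext hu hur hab)
    simpa using this
  · exact FF_of_F0 (D.F0_desc hu hur (F0_of_FF hp h))

theorem FF_desc_iter {u : ℕ → A} (hu : IsFixed φ u) (hur : UR u) (hD : D.MC) (k : ℕ)
    {v : List A} (h : FF u (D.Phi^[k] v)) : FF u v := by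
  induction k generalizing v with
  | zero => exact h
  | succ k ih =>
    rw [Function.iterate_succ_apply] at h
    exact D.FF_desc hu hur hD (ih h)

theorem iter_sub_Phi (k : ℕ) (v : List A) : (ap φ)^[k] v <:+: D.Phi^[k] v := by
  induction k with
  | zero => exact List.infix_rfl
  | succ k ih =>
    rw [Function.iterate_succ_apply', Function.iterate_succ_apply']
    refine (ap_sub φ ih).trans ?_
    exact ⟨D.p, D.q, rfl⟩

theorem lang_iter_Phi {u : ℕ → A} (hu : IsFixed φ u) (hur : UR u) (k : ℕ) {z : List A}
    (hz : Lang u z) : Lang u (D.Phi^[k] z) := by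
  induction k with
  | zero => exact hz
  | succ k ih =>
    rw [Function.iterate_succ_apply']
    exact D.lang_Phi hu hur ih

theorem FF_all [Finite A] [Nontrivial A] (hprim : Primitive φ) {u : ℕ → A}
    (hu : IsFixed φ u) (hur : UR u) {N : ℕ} (hpot : ∀ n, N ≤ n → Pot u n) {v : List A}
    (hv : Lang u v) (hne : D.Phi v ≠ []) : FF u v := by
  classical
  have := Fintype.ofFinite A
  -- every long factor contains all letters
  obtain ⟨N', hN'⟩ : ∃ N', ∀ z, Lang u z → N' ≤ z.length → ∀ a, a ∈ z := by
    have h1 : ∀ a, ∃ M, ∀ i, [a] <:+: fac u i M := fun a => hur [a] (lang_letter hprim hu a)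
    choose M hM using h1
    refine ⟨∑ a, M a, fun z hz hl a => ?_⟩
    obtain ⟨i, hi⟩ := hz
    have h2 : M a ≤ ∑ a, M a := Finset.single_le_sum (f := M) (fun _ _ => Nat.zero_le _)
      (Finset.mem_univ a)
    have h3 : [a] <:+: z := by
      rw [hi]
      exact (hM a i).trans (fac_infix u le_rfl (by omega))
    exact h3.subset (by simp)
  obtain ⟨K, hK⟩ := growth hprim (max N N')
  have hlen : ∀ k, K ≤ k → max N N' ≤ (D.Phi^[k + 1] v).length := by
    intro k hk
    rw [Function.iterate_succ_apply]
    exact (hK k hk _ hne).trans (D.iter_sub_Phi k _).length_le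
  have hFF : ∀ k, K ≤ k → FF u (D.Phi^[k + 1] v) := by
    intro k hk
    have h1 := hlen k hk
    have h2 : N ≤ (D.Phi^[k + 1] v).length := (le_max_left _ _).trans h1
    exact FF_of_pot (hpot _ (by omega)) rfl
  by_cases hD : D.MC
  · exact D.FF_desc_iter hu hur hD (K + 1) (hFF K le_rfl)
  · -- one of two consecutive iterates is not a palindrome
    have hnp : ∃ k, K ≤ k ∧ (D.Phi^[k + 1] v).reverse ≠ D.Phi^[k + 1] v := by
      by_contra hcon
      push Not at hcon
      apply hD
      have h1 := hcon K le_rfl
      have h2 := hcon (K + 1) (by omega)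
      rw [Function.iterate_succ_apply' D.Phi (K + 1) v] at h2
      refine D.MC_of_pal h1 ?_ h2
      exact hN' _ (D.lang_iter_Phi hu hur (K + 1) hv) ((le_max_right _ _).trans (hlen K le_rfl))
    obtain ⟨k, hk, hk'⟩ := hnp
    exact FF_of_F0 (D.F0_desc_iter hu hur (k + 1) (F0_of_FF hk' (hFF k hk)))

end MData

/-! ### The main theorem -/

theorem defect_zero_main [Finite A] {φ : A → List A} (hprim : Primitive φ) (hm : Marked φ)
    {u : ℕ → A} (hu : IsFixed φ u) {B : ℕ} (hB : ∀ w, Lang u w → defect w ≤ B) (i n : ℕ) :
    defect (fac u i n) = 0 := by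
  classical
  rcases subsingleton_or_nontrivial A with hA | hA
  · -- one letter: every word is a palindrome
    apply defect_zero_of_ret
    apply ret_of_pot
    intro n θ hθ
    refine ⟨fun _ => 0, fun _ => rfl, fun i => ?_⟩
    have h1 : (fac u i (n + 1)).reverse = fac u i (n + 1) := by
      apply List.ext_getElem
      · simp
      · intro k _ _; exact Subsingleton.elim _ _
    have := hθ (fac u i (n + 1))
    rw [h1] at this
    linarith
  · have hur := ur_of_primitive hprim hu
    obtain ⟨N, hN⟩ := ret_of_defect hur hB
    have hpot : ∀ n, N ≤ n → Pot u n := fun n hn => pot_of_ret (hN n hn)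
    have hrev : ∀ w, Lang u w → Lang u w.reverse := fun w hw => lang_reverse hur hB hw
    obtain ⟨D⟩ := exists_mdata hm
    have hFF : ∀ w : List A, FF u w := by
      intro w
      by_cases hw : Lang u w
      · by_cases hne : D.Phi w = []
        · -- stationary case, `w` empty
          have h1 : D.p = [] ∧ ap φ w = [] ∧ D.q = [] := by
            unfold MData.Phi at hne
            have := List.append_eq_nil_iff.1 hne
            have h2 := List.append_eq_nil_iff.1 this.1
            exact ⟨h2.1, h2.2, this.2⟩
          have hw0 : w = [] := by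
            have h2 := length_ap_ge D.neφ w
            rw [h1.2.1] at h2
            exact List.length_eq_zero_iff.1 (by simpa using h2)
          subst hw0
          have e1 : ∀ a, D.φ₁ a = φ a := by
            intro a
            have := D.hp a
            rw [h1.1] at this
            simpa using this
          have e2 : ∀ a, D.φ₂ a = φ a := by
            intro a
            have := D.hq a
            rw [h1.2.2] at this
            simpa using this.symm
          refine FF_nil_of_stationary hprim hu D.πl D.πr (fun a => ?_) (fun a => ?_)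
            (m := N + 1) (by omega) (hpot _ (by omega))
          · rw [← e1]; exact D.hl a
          · rw [← e2]; exact D.hr a
        · exact D.FF_all hprim hu hur hpot hw hne
      · intro θ _
        refine ⟨fun _ => 0, fun _ => 0, fun a b hab => ?_⟩
        exact absurd (hab.sub ⟨[a], [b], by simp⟩) hw
    have hall : ∀ n, Pot u n := by
      intro n
      induction n with
      | zero => exact pot_zero u
      | succ n ih => exact pot_succ hrev ih (fun w _ => hFF w)
    exact defect_zero_of_ret (ret_of_pot hall) i n

/-- **Zero defect for primitive marked morphisms.** If `φ` is a primitive marked morphism over a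
finite alphabet and `u` is a fixed point of `φ` with finite palindromic defect, then the
palindromic defect of `u` is zero. -/
theorem result {A : Type*} [Finite A] (φ : A → List A) (hprim : Primitive φ) (hmarked : Marked φ)
    (u : ℕ → A) (hu : IsFixed φ u) (hD : wordDefect u < ⊤) : wordDefect u = 0 := by
  obtain ⟨B, hB⟩ := ENat.ne_top_iff_exists.1 hD.ne
  have hB' : ∀ w, Lang u w → defect w ≤ B := by
    rintro w ⟨i, hi⟩
    have h1 : (defect (fac u i w.length) : ℕ∞) ≤ wordDefect u :=
      le_iSup_of_le i (le_iSup_of_le w.length le_rfl)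
    rw [← hB, ← hi] at h1
    exact_mod_cast h1
  have h0 := defect_zero_main hprim hmarked hu hB'
  unfold wordDefect
  simp [h0]

end Pool.Agent.Results.MP_90aa3f_co.ZeroDefect
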